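import Pool.Agent.H88.Ust.Small

/-!
# Balanced split edges in uniform spanning trees of grids

`p n` is the probability that a uniformly random spanning tree of the `n × n` grid has an exactly
balanced split edge.  We prove `p n ≥ (1 / 64) / n ^ 2` for every even `n ≥ 2`.
-/

namespace Pool.Agent.Results.MP_fcbeb7_pr.BalancedSplitEdges

/-- The `n × n` square grid graph: two vertices are adjacent when they differ by `1` in exactly one
coordinate (and agree in the other one). -/
def gridGraph (n : ℕ) : SimpleGraph (Fin n × Fin n) where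
  Adj a b := (a.1 = b.1 ∧ ((a.2 : ℕ) + 1 = b.2 ∨ (b.2 : ℕ) + 1 = a.2)) ∨
    (a.2 = b.2 ∧ ((a.1 : ℕ) + 1 = b.1 ∨ (b.1 : ℕ) + 1 = a.1))
  symm := by
    constructor
    rintro a b (⟨h1, h2⟩ | ⟨h1, h2⟩)
    · exact Or.inl ⟨h1.symm, h2.symm⟩
    · exact Or.inr ⟨h1.symm, h2.symm⟩
  loopless := by
    constructor
    rintro a (⟨-, h⟩ | ⟨-, h⟩) <;> omega

/-- The spanning trees of the `n × n` grid. -/
def spanningTrees (n : ℕ) : Set (SimpleGraph (Fin n × Fin n)) := {T | T ≤ gridGraph n ∧ T.IsTree}

/-- `e` is an exactly balanced split edge of `T`: an edge of `T` such that deleting it from `T`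
leaves exactly two components, each of them with exactly half of the `n ^ 2` vertices. -/
def IsBalancedSplitEdge {n : ℕ} (T : SimpleGraph (Fin n × Fin n)) (e : Sym2 (Fin n × Fin n)) :
    Prop :=
  e ∈ T.edgeSet ∧ Nat.card (T.deleteEdges {e}).ConnectedComponent = 2 ∧
    ∀ C : (T.deleteEdges {e}).ConnectedComponent, 2 * C.supp.ncard = n ^ 2

/-- The probability that a uniformly random spanning tree of the `n × n` grid has an exactly
balanced split edge. -/
noncomputable def p (n : ℕ) : ℝ :=
  ({T ∈ spanningTrees n | ∃ e, IsBalancedSplitEdge T e}.ncard : ℝ) / (spanningTrees n).ncard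

/-- For every even `n ≥ 2`, a uniform spanning tree of the `n × n` grid has an exactly balanced
split edge with probability at least `(1 / 64) / n ^ 2`. -/
theorem result (n : ℕ) (hn : 2 ≤ n) (heven : Even n) : (1 / 64 : ℝ) / (n : ℝ) ^ 2 ≤ p n := by
  obtain ⟨c, rfl⟩ : ∃ c, n = 2 * c := by
    obtain ⟨c, hc⟩ := heven
    exact ⟨c, by omega⟩
  have hc : 1 ≤ c := by omega
  have hgrid : gridGraph (2 * c) = Pool.Agent.H88.Ust.grid (2 * c) := rfl
  have hset : {T ∈ spanningTrees (2 * c) | ∃ e, IsBalancedSplitEdge T e} =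
      Pool.Agent.H88.Ust.balTrees (2 * c) := by
    ext T
    simp only [spanningTrees, Pool.Agent.H88.Ust.balTrees, IsBalancedSplitEdge,
      Pool.Agent.H88.Ust.BalancedSplit, Set.mem_ofPred_eq, hgrid, Nat.card_eq_fintype_card,
      Fintype.card_prod, Fintype.card_fin, pow_two, and_assoc]
  have hmain := Pool.Agent.H88.Ust.main_ineq hc
  have htree : 0 < (spanningTrees (2 * c)).ncard := by
    have : NeZero (2 * c) := ⟨by omega⟩
    obtain ⟨T, hT, hT'⟩ := (Pool.Agent.H88.Ust.grid_connected (2 * c)).exists_isTree_le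
    exact (Set.ncard_pos (Set.toFinite _)).2 ⟨T, hT, hT'⟩
  rw [p, hset, div_le_div_iff₀ (by positivity) (by exact_mod_cast htree)]
  have h1 : ((spanningTrees (2 * c)).ncard : ℝ) ≤
      256 * (c : ℝ) ^ 2 * ((Pool.Agent.H88.Ust.balTrees (2 * c)).ncard : ℝ) := by
    exact_mod_cast hmain
  push_cast
  linarith

end Pool.Agent.Results.MP_fcbeb7_pr.BalancedSplitEdges
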